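import Pool.Agent.helper78.EQ.Spec
import Pool.Agent.helper30.LD.J0
import Pool.Agent.helper97.LD.F0

/-!
Project EQ, module I1: a bound for the number of zeros gives a bound for the number of windows in
which the zeta function takes a large value.
-/

set_option autoImplicit false

open Complex MeasureTheory Set Metric

namespace Pool.Agent.EQ

open Pool.Agent.helper6.LD

theorem helper63_wins_card (T H : ℝ) (hT : 0 ≤ T) (hH : 0 ≤ H) :
    (wins T H).Finite ∧ ((wins T H).ncard : ℝ) ≤ H + 2 := by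
  have hsub : wins T H ⊆ ((Finset.Icc (⌈T⌉₊ - 1) ⌊T + H⌋₊ : Finset ℕ) : Set ℕ) := by
    intro k hk
    obtain ⟨h1, h2⟩ := hk
    rw [Finset.mem_coe, Finset.mem_Icc]
    constructor
    · have h3 : ⌈T⌉₊ ≤ k + 1 := Nat.ceil_le.mpr (by push_cast; exact h1)
      omega
    · exact Nat.le_floor h2
  have hfin : (wins T H).Finite := (Finset.finite_toSet _).subset hsub
  refine ⟨hfin, ?_⟩
  have h1 : (wins T H).ncard ≤ (Finset.Icc (⌈T⌉₊ - 1) ⌊T + H⌋₊).card := by
    rw [← Set.ncard_coe_finset]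
    exact Set.ncard_le_ncard hsub (Finset.finite_toSet _)
  have h3 : ⌈T⌉₊ ≤ ⌊T + H⌋₊ + 1 := by
    refine (Nat.ceil_le_floor_add_one T).trans ?_
    have := Nat.floor_le_floor (show T ≤ T + H by linarith)
    omega
  have h2 : (wins T H).ncard + ⌈T⌉₊ ≤ ⌊T + H⌋₊ + 2 := by
    rw [Nat.card_Icc] at h1
    omega
  have h4 : ((wins T H).ncard : ℝ) + (⌈T⌉₊ : ℝ) ≤ (⌊T + H⌋₊ : ℝ) + 2 := by exact_mod_cast h2
  have h5 : T ≤ (⌈T⌉₊ : ℝ) := Nat.le_ceil T
  have h6 : (⌊T + H⌋₊ : ℝ) ≤ T + H := Nat.floor_le (by linarith)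
  linarith

/-- The zeros counted by `Zer` form a finite set, of size at most `Zer`. -/
theorem helper63_zer_card (ε u T H : ℝ) : ∃ Z : Finset ℂ,
    (∀ ρ : ℂ, riemannZeta ρ = 0 → u ≤ ρ.re → T < ρ.im → ρ.im ≤ T + H → ρ ∈ Z) ∧
      (∀ ρ ∈ Z, T < ρ.im) ∧ (Z.card : ℝ) ≤ Zer ε u T H := by
  set S : Set ℂ := {ρ : ℂ | u ≤ ρ.re ∧ T < ρ.im ∧ ρ.im ≤ T + H} with hS
  set S' : Set ℂ := {ρ : ℂ | u ≤ ρ.re ∧ ρ.re ≤ 1 ∧ T < ρ.im ∧ ρ.im ≤ T + H} with hS'
  have hb : Bornology.IsBounded S' := by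
    have h : Bornology.IsBounded ((Set.Icc u 1) ×ℂ (Set.Icc T (T + H))) :=
      (Metric.isBounded_Icc _ _).reProdIm (Metric.isBounded_Icc _ _)
    refine h.subset ?_
    rintro ρ ⟨h1, h2, h3, h4⟩
    rw [Complex.mem_reProdIm]
    exact ⟨⟨h1, h2⟩, ⟨h3.le, h4⟩⟩
  have hzc : zc S = zc S' := by
    apply h30_zc_congr
    intro ρ hρ
    constructor
    · rintro ⟨h1, h2, h3⟩
      exact ⟨h1, (h97_re_lt hρ).le, h2, h3⟩
    · rintro ⟨h1, _, h2, h3⟩
      exact ⟨h1, h2, h3⟩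
  refine ⟨(zeros_finite hb).toFinset, ?_, ?_, ?_⟩
  · intro ρ hρ h1 h2 h3
    rw [Set.Finite.mem_toFinset]
    exact ⟨⟨h1, (h97_re_lt hρ).le, h2, h3⟩, hρ⟩
  · intro ρ hρ
    rw [Set.Finite.mem_toFinset] at hρ
    exact hρ.1.2.2.1
  · have h1 : (zeros_finite hb).toFinset.card ≤ zc S' := by
      rw [h30_zc_eq hb, Finset.card_eq_sum_ones]
      apply Finset.sum_le_sum
      intro ρ hρ
      rw [Set.Finite.mem_toFinset] at hρ
      exact order_pos hρ.2
    show ((zeros_finite hb).toFinset.card : ℝ) ≤ (zc S : ℝ)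
    rw [hzc]
    exact_mod_cast h1

/-- The combinatorial count: every window beyond `K` is within a bounded distance of a point of
`Z`. -/
theorem helper63_win_count (A : Set ℕ) (hA : A.Finite) (K : ℕ) (Z : Finset ℂ)
    (h : ∀ k ∈ A, K < k → ∃ ρ ∈ Z, (k : ℝ) - 3 ≤ ρ.im ∧ ρ.im ≤ (k : ℝ) + 4) :
    A.ncard ≤ (K + 1) + 8 * Z.card := by
  classical
  rw [Set.ncard_eq_toFinset_card A hA]
  have hsplit := Finset.card_filter_add_card_filter_not (s := hA.toFinset) (fun k => k ≤ K)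
  have h1 : (hA.toFinset.filter (fun k => k ≤ K)).card ≤ K + 1 := by
    calc (hA.toFinset.filter (fun k => k ≤ K)).card ≤ (Finset.range (K + 1)).card := by
          apply Finset.card_le_card
          intro k hk
          rw [Finset.mem_filter] at hk
          rw [Finset.mem_range]
          omega
      _ = K + 1 := Finset.card_range _
  have h' : ∀ k : ℕ, ∃ ρ : ℂ, k ∈ A → K < k →
      ρ ∈ Z ∧ (k : ℝ) - 3 ≤ ρ.im ∧ ρ.im ≤ (k : ℝ) + 4 := by
    intro k
    by_cases hk : k ∈ A ∧ K < k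
    · obtain ⟨ρ, h1, h2⟩ := h k hk.1 hk.2
      exact ⟨ρ, fun _ _ => ⟨h1, h2⟩⟩
    · exact ⟨0, fun h1 h2 => (hk ⟨h1, h2⟩).elim⟩
  choose f hf using h'
  have h2 : (hA.toFinset.filter (fun k => ¬ k ≤ K)).card ≤ 8 * Z.card := by
    apply Finset.card_le_mul_card_image_of_maps_to (f := f)
    · intro k hk
      rw [Finset.mem_filter, Set.Finite.mem_toFinset] at hk
      exact (hf k hk.1 (by omega)).1
    · intro ρ hρ
      have hsub : (hA.toFinset.filter (fun k => ¬ k ≤ K)).filter (fun k => f k = ρ) ⊆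
          Finset.Icc (⌈ρ.im⌉₊ - 4) (⌈ρ.im⌉₊ + 3) := by
        intro k hk
        rw [Finset.mem_filter, Finset.mem_filter, Set.Finite.mem_toFinset] at hk
        obtain ⟨⟨hkA, hkK⟩, hkf⟩ := hk
        obtain ⟨_, h3, h4⟩ := hf k hkA (by omega)
        rw [hkf] at h3 h4
        rw [Finset.mem_Icc]
        constructor
        · have h5 : ⌈ρ.im⌉₊ ≤ k + 4 := Nat.ceil_le.mpr (by push_cast; exact h4)
          omega
        · have h5 : (k : ℝ) ≤ (⌈ρ.im⌉₊ : ℝ) + 3 := by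
            have := Nat.le_ceil ρ.im
            linarith
          exact_mod_cast h5
      refine (Finset.card_le_card hsub).trans ?_
      rw [Nat.card_Icc]
      omega
  omega

theorem I1 (hTC : TC_stmt) (hTRF : TRF_stmt) : I1_stmt := by
  intro θ b hθ hb hZ
  refine hTRF θ b (fun _ => 0) Lw {Zer} hθ hb ?_ ?_ ?_ ?_
  · intro σ h1 h2
    exact hb.one.trans (hb.anti ⟨h1, h2⟩ ⟨by norm_num, le_refl _⟩ h2)
  · intro ε η hε hη
    refine ⟨3, by norm_num, ?_⟩
    intro σ T H hσ hσ1 hT hH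
    obtain ⟨hfin, hcard⟩ := helper63_wins_card T H hT (by linarith)
    have h1 : Lw ε σ T H ≤ ((wins T H).ncard : ℝ) := by
      unfold Lw
      have := Set.ncard_le_ncard (s := {k : ℕ | k ∈ wins T H ∧ ∃ s : ℂ, σ ≤ s.re ∧
        (k : ℝ) ≤ s.im ∧ s.im ≤ (k : ℝ) + 1 ∧ (T + H + 2) ^ ε ≤ ‖riemannZeta s‖})
        (t := wins T H) (fun k hk => hk.1) hfin
      exact_mod_cast this
    have hX : 1 ≤ (T + H + 2) ^ η := Real.one_le_rpow (by linarith) hη.le
    have h2 : 3 * H ≤ 3 * (T + H + 2) ^ η * H := by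
      have : 1 * (3 * H) ≤ (T + H + 2) ^ η * (3 * H) :=
        mul_le_mul_of_nonneg_right hX (by linarith)
      linarith
    linarith
  · intro ε δ η hε hδ hδ4 hη
    obtain ⟨T₀, hT₀5, hTC'⟩ := hTC (ε / 2) δ (by linarith) hδ hδ4
    obtain ⟨K, hK⟩ : ∃ K : ℕ, K = ⌈T₀⌉₊ := ⟨_, rfl⟩
    have hKT : T₀ ≤ (K : ℝ) := by rw [hK]; exact Nat.le_ceil _
    refine ⟨Zer, rfl, η, (K : ℝ) + 12, hη, le_refl _, by positivity, ?_⟩
    intro σ T H hσ hσ1 hT hH
    have hX3 : 3 ≤ T + H + 2 := by linarith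
    have hX : 1 ≤ (T + H + 2) ^ η := Real.one_le_rpow (by linarith) hη.le
    have hK0 : (0 : ℝ) ≤ (K : ℝ) := Nat.cast_nonneg K
    refine ⟨max (T - 5) 0, H + 10, le_max_right _ _, max_le (by linarith) hT, by linarith, ?_, ?_⟩
    · have h1 : 1 * (((K : ℝ) + 12) * H) ≤ (T + H + 2) ^ η * (((K : ℝ) + 12) * H) :=
        mul_le_mul_of_nonneg_right hX (by positivity)
      have h2 : 0 ≤ (K : ℝ) * H := by positivity
      calc H + 10 ≤ 1 * (((K : ℝ) + 12) * H) := by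
            have e : 1 * (((K : ℝ) + 12) * H) = (K : ℝ) * H + 12 * H := by ring
            linarith
        _ ≤ (T + H + 2) ^ η * (((K : ℝ) + 12) * H) := h1
        _ = ((K : ℝ) + 12) * (T + H + 2) ^ η * H := by ring
    · intro B hB hBu
      have hB1 := hBu (σ - δ) (le_refl _) (by linarith)
      obtain ⟨Z, hZ1, hZ2, hZ3⟩ := helper63_zer_card η (σ - δ) (max (T - 5) 0) (H + 10)
      obtain ⟨hfin, _⟩ := helper63_wins_card T H hT (by linarith)
      have hcount := helper63_win_count {k : ℕ | k ∈ wins T H ∧ ∃ s : ℂ, σ ≤ s.re ∧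
        (k : ℝ) ≤ s.im ∧ s.im ≤ (k : ℝ) + 1 ∧ (T + H + 2) ^ ε ≤ ‖riemannZeta s‖}
        (hfin.subset (fun k hk => hk.1)) K Z (by
          rintro k ⟨⟨hk1, hk2⟩, s, hs1, hs2, hs3, hs4⟩ hkK
          have hkK' : (K : ℝ) + 1 ≤ (k : ℝ) := by exact_mod_cast hkK
          by_contra hcon
          have hTs := hTC' s (by linarith) (by linarith) (by
            intro ρ hρ h1 h2
            rw [abs_le] at h2
            apply hcon
            refine ⟨ρ, hZ1 ρ hρ (by linarith) ?_ ?_, by linarith, by linarith⟩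
            · exact max_lt (by linarith) (by linarith)
            · have := le_max_left (T - 5) 0
              linarith)
          have h1 : s.im ^ (ε / 2) ≤ (T + H + 2) ^ (ε / 2) :=
            Real.rpow_le_rpow (by linarith) (by linarith) (by linarith)
          have h2 : (T + H + 2) ^ (ε / 2) < (T + H + 2) ^ ε :=
            Real.rpow_lt_rpow_of_exponent_lt (by linarith) (by linarith)
          have h3 := hTs.2.1
          linarith)
      have hL : Lw ε σ T H ≤ ((K : ℝ) + 1) + 8 * (Z.card : ℝ) := by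
        unfold Lw
        exact_mod_cast hcount
      have h8 : Lw ε σ T H ≤ ((K : ℝ) + 1) + 8 * B := by linarith
      show Lw ε σ T H ≤ ((K : ℝ) + 12) * (T + H + 2) ^ η * (H ^ (0 : ℝ) + B)
      rw [Real.rpow_zero]
      have h9 : 1 * (((K : ℝ) + 12) * (1 + B)) ≤ (T + H + 2) ^ η * (((K : ℝ) + 12) * (1 + B)) :=
        mul_le_mul_of_nonneg_right hX (by positivity)
      have h10 : 0 ≤ (K : ℝ) * B := by positivity
      calc Lw ε σ T H ≤ ((K : ℝ) + 1) + 8 * B := h8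
        _ ≤ 1 * (((K : ℝ) + 12) * (1 + B)) := by
            have e : 1 * (((K : ℝ) + 12) * (1 + B)) = (K : ℝ) + 12 + (K : ℝ) * B + 12 * B := by ring
            linarith
        _ ≤ (T + H + 2) ^ η * (((K : ℝ) + 12) * (1 + B)) := h9
        _ = ((K : ℝ) + 12) * (T + H + 2) ^ η * (1 + B) := by ring
  · intro G hG
    rw [Set.mem_singleton_iff] at hG
    rw [hG]
    exact hZ

end Pool.Agent.EQ
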